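import Pool.Agent.Helper95.LVT.Const

/-!
# The constants in Montgomery's large value conjecture grow fast with `A`

Q1 asks for a constant `C(σ, A, ε)` with `|W| ≤ C(σ, A, ε) N^(2 - 2σ + ε)` for all `N ≤ T ≤ N^A`. We show
that for every `σ` between `1/2` and `1`, every `ε` and every `κ < 1/σ` such a constant, if it exists, is at
least `exp (A^κ)` for all large `A`. The exponents `1/σ` are larger than `1`: no bound of the shape
`K(σ, ε)^A` holds.

The proof takes `N` with `(log N)^(a - 1)` a little smaller than `A`, for an `a` with `σ < 1 - 1/a` close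
to equality, and the polynomials with coefficients `0`, `1` supported on smooth integers which are larger
than `N^σ` at `T^(1 - ε)` integers `t ≤ T = exp ((log N)^a)`.
-/

set_option autoImplicit false

namespace Pool.Agent.Results.MP_ecd12e_nt.ConstantsGrowWithA

open Finset

/-- `D(t) = ∑_{N ≤ n ≤ 2N} b_n n^{it}` -/
noncomputable def D (N : ℕ) (b : ℕ → ℂ) (t : ℝ) : ℂ :=
  ∑ n ∈ Icc N (2 * N), b n * Complex.exp (((t * Real.log (n : ℝ) : ℝ) : ℂ) * Complex.I)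

/-- `C` is an admissible constant in Q1 for the parameters `σ`, `A`, `ε` -/
def Admissible (σ A ε C : ℝ) : Prop :=
  ∀ (N : ℕ) (T : ℝ) (b : ℕ → ℂ) (W : Finset ℤ), 1 ≤ N → (N : ℝ) ≤ T → T ≤ (N : ℝ) ^ A →
    (∀ n ∈ Icc N (2 * N), ‖b n‖ ≤ 1) →
    (∀ t ∈ W, 0 ≤ (t : ℝ) ∧ (t : ℝ) ≤ T ∧ (N : ℝ) ^ σ < ‖D N b t‖) →
    (W.card : ℝ) ≤ C * (N : ℝ) ^ (2 - 2 * σ + ε)

/-- An admissible constant in Q1 for `σ`, `A`, `ε` is at least `exp (A^κ)`, for every `κ < 1/σ` and all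
large `A`. -/
theorem result (σ ε κ : ℝ) (hσ0 : 1 / 2 < σ) (hσ1 : σ < 1) (hκ : κ < 1 / σ) :
    ∃ A₀ : ℝ, ∀ A : ℝ, A₀ ≤ A → ∀ C : ℝ, Admissible σ A ε C → Real.exp (A ^ κ) ≤ C := by
  obtain ⟨A₀, -, h⟩ := Pool.Agent.Helper95.LVT.const_growth σ ε κ hσ0 hσ1 hκ
  refine ⟨A₀, fun A hA C hC => h A hA C fun N T b W h1 h2 h3 h4 h5 => ?_⟩
  exact hC N T b W h1 h2 h3 (fun n _ => h4 n) h5

end Pool.Agent.Results.MP_ecd12e_nt.ConstantsGrowWithA
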