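import Pool.Agent.Helper95.LVT.CritB

/-!
# Montgomery's large value conjecture near the critical level `1/2`

`D(t) = ∑_{N ≤ n ≤ 2N} b_n n^{it}`, `|b_n| ≤ 1`. Q1 says that for every `σ > 1/2` there are at most
`N^(2 - 2σ + ε)` integers `t ≤ N^A` with `|D(t)| > N^σ`, up to a constant `C(σ, A, ε)`.

* For all `A` and `ε > 0` there is `c > 0` such that for all large `N` there are `D` with coefficients in
  `{-1, 0, 1}` and sets of at least `N^(A - ε)` integers `t ∈ [0, N^A]` at which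
  `|D(t)| ≥ N^(1/2) exp (c √(log N) / log log N)`. So for `A > 1` the bound of Q1 fails, by the full power
  `N^(A - 1 - ε)`, at levels above the critical level `N^(1/2)`.
* If `A > 1 + ε`, then the constants in Q1 satisfy `C(σ, A, ε) ≥ exp ((σ - 1/2)^(-κ))` for every `κ < 2` and
  all `σ > 1/2` close to `1/2`.

`D` is the product of the sum of `s^{it}` over products `s` of primes of `(y/8, y]`, `y` a multiple of
`log N`, whose terms are aligned at the points `t` by the pigeonhole principle, and of a sum with random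
signs over integers free of these primes.
-/

set_option autoImplicit false

namespace Pool.Agent.Results.MP_ecd12e_nt.CriticalLevel

open Finset

/-- `D(t) = ∑_{N ≤ n ≤ 2N} b_n n^{it}` -/
noncomputable def D (N : ℕ) (b : ℕ → ℂ) (t : ℝ) : ℂ :=
  ∑ n ∈ Icc N (2 * N), b n * Complex.exp (((t * Real.log (n : ℝ) : ℝ) : ℂ) * Complex.I)

/-- `C` is an admissible constant in Q1 for the parameters `σ`, `A`, `ε` -/
def Admissible (σ A ε C : ℝ) : Prop :=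
  ∀ (N : ℕ) (T : ℝ) (b : ℕ → ℂ) (W : Finset ℤ), 1 ≤ N → (N : ℝ) ≤ T → T ≤ (N : ℝ) ^ A →
    (∀ n ∈ Icc N (2 * N), ‖b n‖ ≤ 1) →
    (∀ t ∈ W, 0 ≤ (t : ℝ) ∧ (t : ℝ) ≤ T ∧ (N : ℝ) ^ σ < ‖D N b t‖) →
    (W.card : ℝ) ≤ C * (N : ℝ) ^ (2 - 2 * σ + ε)

/-- There are `N^(A - ε)` large values of size `N^(1/2) exp (c √(log N) / log log N)`, and the constants in
Q1 are at least `exp ((σ - 1/2)^(-κ))`, `κ < 2`, near `σ = 1/2`. -/
theorem result :
    (∀ A ε : ℝ, 0 < ε → ∃ c : ℝ, 0 < c ∧ ∃ N₀ : ℕ, ∀ N : ℕ, N₀ ≤ N →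
      ∃ (b : ℕ → ℂ) (W : Finset ℤ), (∀ n, b n = 0 ∨ b n = 1 ∨ b n = -1) ∧
        (∀ t ∈ W, 0 ≤ (t : ℝ) ∧ (t : ℝ) ≤ (N : ℝ) ^ A ∧
          (N : ℝ) ^ (1 / 2 : ℝ) * Real.exp (c * Real.sqrt (Real.log N) / Real.log (Real.log N)) ≤
            ‖D N b t‖) ∧
        (N : ℝ) ^ (A - ε) ≤ (W.card : ℝ)) ∧
    (∀ A ε κ : ℝ, 0 < ε → 1 + ε < A → κ < 2 → ∃ σ₀ : ℝ, 1 / 2 < σ₀ ∧
      ∀ σ : ℝ, 1 / 2 < σ → σ < σ₀ → ∀ C : ℝ, Admissible σ A ε C →
        Real.exp ((σ - 1 / 2) ^ (-κ)) ≤ C) := by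
  refine ⟨fun A ε hε => Pool.Agent.Helper95.LVT.crit A ε hε, fun A ε κ hε hA hκ => ?_⟩
  obtain ⟨σ₀, h0, h⟩ := Pool.Agent.Helper95.LVT.crit_const A ε κ hε hA hκ
  refine ⟨σ₀, h0, fun σ h1 h2 C hC => h σ h1 h2 C fun N T b W g1 g2 g3 g4 g5 => ?_⟩
  exact hC N T b W g1 g2 g3 (fun n _ => g4 n) g5

end Pool.Agent.Results.MP_ecd12e_nt.CriticalLevel
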