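import Pool.Agent.Helper95.LVT.KEnergy

/-!
# Large values and the additive energies of all orders; Montgomery's conjecture for `B_k` sets

`D(t) = ∑_{N ≤ n ≤ 2N} b_n n^{it}`, `|b_n| ≤ 1`, and `W` is a finite set of integers `t`, `|t| ≤ T`, with
`|D(t)| ≥ V`. Let `E_k(W)` be the number of the solutions of `t_1 + ⋯ + t_k = s_1 + ⋯ + s_k` in `W`.

* For every `k ≥ 1`: `(|W| V)^(2k) ≤ 2π (N + 1)^(2k-1) (2N + 1 + 2kT) E_k(W)`. For `k = 1` this is the mean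
  value theorem.
* Hence the bound of Q1 holds for the sets with `E_k(W) ≤ K |W|^k` (this is the smallest possible order
  of magnitude of `E_k`) for one `k ≥ (A - 1)/ε`, `T ≤ N^A`, at every level `σ`.
* In particular Q1 holds for the sets `W` for which equal sums of `k` elements are equal up to the order
  of the summands, for one `k ≥ (A - 1)/ε`. For these `E_k(W) ≤ k! |W|^k`.

So a set of large values which violates the bound of Q1 by the factor `N^ε` has `E_k(W)/|W|^k` of size at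
least `c N^(kε - A + 1)`, for all `k`.
-/

set_option autoImplicit false

namespace Pool.Agent.Results.MP_ecd12e_nt.EnergiesOfAllOrders

open Finset

/-- `D(t) = ∑_{N ≤ n ≤ 2N} b_n n^{it}` -/
noncomputable def D (N : ℕ) (b : ℕ → ℂ) (t : ℝ) : ℂ :=
  ∑ n ∈ Icc N (2 * N), b n * Complex.exp (((t * Real.log (n : ℝ) : ℝ) : ℂ) * Complex.I)

/-- `E_k(W)`, the number of the solutions of `t_1 + ⋯ + t_k = s_1 + ⋯ + s_k` in `W` -/
def energy (k : ℕ) (W : Finset ℤ) : ℕ :=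
  (((Fintype.piFinset fun _ : Fin k => W) ×ˢ (Fintype.piFinset fun _ : Fin k => W)).filter
    fun p => ∑ i, p.1 i = ∑ i, p.2 i).card

/-- equal sums of `k` elements of `W` are equal up to the order of the summands -/
def IsBk (k : ℕ) (W : Finset ℤ) : Prop :=
  ∀ g h : Fin k → ℤ, (∀ i, g i ∈ W) → (∀ i, h i ∈ W) → ∑ i, g i = ∑ i, h i →
    ∃ π : Equiv.Perm (Fin k), h = g ∘ π

/-- The large value inequality with the `k`-fold additive energy, and Q1 for the sets of smallest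
possible `k`-energy, in particular for the `B_k` sets, `k ≥ (A - 1)/ε`. -/
theorem result :
    (∀ (N k : ℕ) (T V : ℝ) (b : ℕ → ℂ) (W : Finset ℤ), 1 ≤ N → 1 ≤ k → 0 ≤ V →
      (∀ n ∈ Icc N (2 * N), ‖b n‖ ≤ 1) → (∀ t ∈ W, |(t : ℝ)| ≤ T ∧ V ≤ ‖D N b t‖) →
      ((W.card : ℝ) * V) ^ (2 * k) ≤
        2 * Real.pi * ((N : ℝ) + 1) ^ (2 * k - 1) * (2 * N + 1 + 2 * k * T) * energy k W) ∧
    (∀ (A ε K : ℝ) (k : ℕ), 1 ≤ A → 0 ≤ K → 1 ≤ k → (A - 1) ≤ k * ε → ∃ C : ℝ,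
      ∀ (N : ℕ) (T σ : ℝ) (b : ℕ → ℂ) (W : Finset ℤ), 1 ≤ N → T ≤ (N : ℝ) ^ A →
        (∀ n ∈ Icc N (2 * N), ‖b n‖ ≤ 1) →
        (∀ t ∈ W, 0 ≤ (t : ℝ) ∧ (t : ℝ) ≤ T ∧ (N : ℝ) ^ σ < ‖D N b t‖) →
        (energy k W : ℝ) ≤ K * (W.card : ℝ) ^ k →
        (W.card : ℝ) ≤ C * (N : ℝ) ^ (2 - 2 * σ + ε)) ∧
    (∀ (A ε : ℝ) (k : ℕ), 1 ≤ A → 1 ≤ k → (A - 1) ≤ k * ε → ∃ C : ℝ,
      ∀ (N : ℕ) (T σ : ℝ) (b : ℕ → ℂ) (W : Finset ℤ), 1 ≤ N → T ≤ (N : ℝ) ^ A →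
        (∀ n ∈ Icc N (2 * N), ‖b n‖ ≤ 1) →
        (∀ t ∈ W, 0 ≤ (t : ℝ) ∧ (t : ℝ) ≤ T ∧ (N : ℝ) ^ σ < ‖D N b t‖) →
        IsBk k W → (W.card : ℝ) ≤ C * (N : ℝ) ^ (2 - 2 * σ + ε)) := by
  refine ⟨fun N k T V b W hN hk hV hb hW => ?_, fun A ε K k hA hK hk hkε => ?_,
    fun A ε k hA hk hkε => ?_⟩
  · refine (Pool.Agent.Helper95.LVT.large_energy N k hN hk T V hV b hb W hW).trans (le_of_eq ?_)
    show _ * (Pool.Agent.Helper95.LVT.kEnergy k W : ℝ) = _ * (Pool.Agent.Helper95.LVT.kEnergy k W : ℝ)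
    ring
  · exact Pool.Agent.Helper95.LVT.small_energy A ε K hA k hk hkε hK
  · obtain ⟨C, hC⟩ := Pool.Agent.Helper95.LVT.small_energy A ε k.factorial hA k hk hkε
      (Nat.cast_nonneg _)
    refine ⟨C, fun N T σ b W hN hT hb hW hB => hC N T σ b W hN hT hb hW ?_⟩
    exact_mod_cast Pool.Agent.Helper95.LVT.energy_Bk k W hB

end Pool.Agent.Results.MP_ecd12e_nt.EnergiesOfAllOrders
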