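import Pool.Agent.Helper95.LVT.Const
import Pool.Agent.Helper95.LVT.Upper

/-!
# Montgomery's large value conjecture beyond polynomial ranges: the critical level `1 - 1/a`

`D(t) = ∑_{N ≤ n ≤ 2N} b_n n^{it}`, `|b_n| ≤ 1`, and `W` is a set of integers `t ∈ [0, T]` with
`|D(t)| > N^σ`. Montgomery's conjecture is about `T ≤ N^A`. We determine what happens in the range
`T ≤ X = exp ((log N)^a)`, `a > 1`. The critical level is `σ_a = max (1/2, 1 - 1/a)`.

* If `σ > σ_a` then `|W| ≤ C X^(1 - 2 (σ - σ_a) + ε)`. For `1 < a ≤ 2` this is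
  `|W| ≤ C X^(2 - 2σ + ε)`, the weaker form of the conjecture (the one that implies the density
  hypothesis), for this range.
* If `σ < 1 - 1/a` then there are polynomials with coefficients `0`, `1` which are larger than `N^σ` at
  `X^(1 - ε)` integers `t ≤ X`, for every `ε > 0` and all large `N`.

So for `a ≥ 2` the level at which a positive power of `X` is saved is exactly `1 - 1/a`.

The upper bound: the mean value theorem for `D^k`, `k` near `(log N)^(a-1)`, and a bound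
`N^(2αk) exp (C k^(1/α))`, for `1/2 < α < 1`, for the number of the solutions of
`n_1 ⋯ n_k = m_1 ⋯ m_k` in `[N, 2N]`. The lower bound: the phases `t log p` of the primes
`p ≤ (log N)^u` are put close to `0` by the pigeonhole principle, at the cost of `X^ε`, and the smooth
integers in `[N, 2N]` number at least `N^(1 - 1/u - ε)`.
-/

set_option autoImplicit false

namespace Pool.Agent.Results.MP_ecd12e_nt.RangeThreshold

open Finset

/-- `D(t) = ∑_{N ≤ n ≤ 2N} b_n n^{it}` -/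
noncomputable def D (N : ℕ) (b : ℕ → ℂ) (t : ℝ) : ℂ :=
  ∑ n ∈ Icc N (2 * N), b n * Complex.exp (((t * Real.log (n : ℝ) : ℝ) : ℂ) * Complex.I)

/-- Large values in the range `T ≤ X = exp ((log N)^a)`, `a > 1`: the critical level is
`σ_a = max (1/2, 1 - 1/a)`. -/
theorem result (a : ℝ) (ha : 1 < a) :
    -- above the critical level
    (∀ σ ε : ℝ, max (1 / 2) (1 - 1 / a) < σ → 0 < ε → ∃ C : ℝ,
      ∀ (N : ℕ) (T : ℝ) (b : ℕ → ℂ) (W : Finset ℤ), 1 ≤ N → T ≤ Real.exp (Real.log N ^ a) →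
        (∀ n ∈ Icc N (2 * N), ‖b n‖ ≤ 1) →
        (∀ t ∈ W, 0 ≤ (t : ℝ) ∧ (t : ℝ) ≤ T ∧ (N : ℝ) ^ σ < ‖D N b t‖) →
        (W.card : ℝ) ≤
          C * Real.exp (Real.log N ^ a) ^ (1 - 2 * (σ - max (1 / 2) (1 - 1 / a)) + ε)) ∧
    -- below the level `1 - 1/a`
    (∀ σ ε : ℝ, σ < 1 - 1 / a → 0 < ε → ∃ N₀ : ℕ, ∀ N : ℕ, N₀ ≤ N →
      ∃ (b : ℕ → ℂ) (W : Finset ℤ), (∀ n, b n = 0 ∨ b n = 1) ∧
        (∀ t ∈ W, 0 ≤ (t : ℝ) ∧ (t : ℝ) ≤ Real.exp (Real.log N ^ a) ∧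
          (N : ℝ) ^ σ < ‖D N b t‖) ∧
        Real.exp (Real.log N ^ a) ^ (1 - ε) ≤ (W.card : ℝ)) := by
  refine ⟨fun σ ε hσ hε => ?_, fun σ ε hσ hε => Pool.Agent.Helper95.LVT.lowerZ a σ ε ha hσ hε⟩
  obtain ⟨C, -, h⟩ := Pool.Agent.Helper95.LVT.upper a σ ε ha hσ hε
  exact ⟨C, h⟩

end Pool.Agent.Results.MP_ecd12e_nt.RangeThreshold
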